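import Mathlib
import Pool.Agent.H184R3.ES

/-!
# MP_6c3374_co : monochromatic convex p-gons in two-coloured point sets

`log₂ g(p) ≤ 8 p² log₂ p` for all `p ≥ 3`, improving the doubly exponential bound for `g(p)`.
-/

set_option autoImplicit false

namespace Pool.Agent.Results.MP_6c3374_co.QuasiQuadraticLog

open Finset

/-- the Euclidean plane -/
abbrev Pt : Type := EuclideanSpace ℝ (Fin 2)

/-- no three distinct points of `P` are collinear -/
def GenPos (P : Finset Pt) : Prop :=
  ∀ a ∈ P, ∀ b ∈ P, ∀ c ∈ P, a ≠ b → a ≠ c → b ≠ c → ¬ Collinear ℝ {a, b, c}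

/-- no point of `Q` lies in the convex hull of the others -/
def ConvexPos (Q : Finset Pt) : Prop :=
  ∀ x ∈ Q, x ∉ convexHull ℝ ((Q : Set Pt) \ {x})

/-- Every set of `n` points in general position, with its pairs coloured with two colours, contains
`p` points in convex position all of whose pairs have the same colour. -/
def Good (p n : ℕ) : Prop :=
  ∀ P : Finset Pt, P.card = n → GenPos P → ∀ col : Sym2 Pt → Bool,
    ∃ Q ⊆ P, Q.card = p ∧ ConvexPos Q ∧
      ∃ b : Bool, ∀ x ∈ Q, ∀ y ∈ Q, x ≠ y → col s(x, y) = b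

/-- the least `n` with the above property -/
noncomputable def g (p : ℕ) : ℕ := sInf {n | Good p n}

/-- orientation in the coordinates `X`, `Y` -/
def orient (X Y : Pt → ℝ) (a b c : Pt) : ℝ :=
  (X b - X a) * (Y c - Y b) - (Y b - Y a) * (X c - X b)

/-- the number of points needed -/
def N : ℕ → ℕ → ℕ
  | 0, _ => 1
  | T + 1, w => 2 * (w + 1) * N T (w + 1)

lemma N_pos (T w : ℕ) : 1 ≤ N T w := by
  induction T generalizing w with
  | zero => simp [N]
  | succ T ih =>
    have := ih (w + 1)
    simp only [N]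
    nlinarith

lemma N_eq (T w : ℕ) : N T w = 2 ^ T * (w + 1).ascFactorial T := by
  induction T generalizing w with
  | zero => simp [N]
  | succ T ih =>
    simp only [N]
    have h := Nat.succ_ascFactorial (w + 1) T
    have h2 : (w + 1) * (w + 1 + 1).ascFactorial T = (w + 1).ascFactorial (T + 1) := by
      rw [Nat.ascFactorial_succ]
      exact h
    rw [ih (w + 1), ← h2, pow_succ]
    ring

/-- The greedy sequence. -/
lemma seq (X Y : Pt → ℝ) (col : Sym2 Pt → Bool) (T : ℕ) :
    ∀ (S W : Finset Pt), (∀ u ∈ W, ∀ x ∈ S, X u < X x) → Set.InjOn X (S : Set Pt) →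
      N T W.card ≤ S.card →
      ∃ (V : Finset Pt) (x0 : Pt), V ⊆ S ∧ x0 ∈ S ∧ V.card = T ∧ (∀ a ∈ V, X a < X x0) ∧
        (∀ a ∈ V, ∀ b ∈ V, X a < X b → col s(a, b) = col s(a, x0)) ∧
        (∀ a ∈ V, ∀ b ∈ V, ∀ c ∈ V, X a < X b → X b < X c →
          (0 < orient X Y a b c ↔ 0 < orient X Y a b x0)) ∧
        (∀ u ∈ W, ∀ b ∈ V, ∀ c ∈ V, X b < X c →
          (0 < orient X Y u b c ↔ 0 < orient X Y u b x0)) := by
  classical
  induction T with
  | zero =>
    intro S W _ _ hc
    simp only [N] at hc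
    obtain ⟨x0, hx0⟩ := Finset.card_pos.1 (by omega : 0 < S.card)
    exact ⟨∅, x0, by simp, hx0, by simp, by simp, by simp, by simp, by simp⟩
  | succ T ih =>
    intro S W hW hinj hc
    have hSne : S.Nonempty := by
      rw [← Finset.card_pos]
      have := N_pos (T + 1) W.card
      omega
    obtain ⟨v0, hv0, hmin⟩ := Finset.exists_min_image S X hSne
    have hlt : ∀ x ∈ S.erase v0, X v0 < X x := by
      intro x hx
      have hx' := Finset.mem_erase.1 hx
      refine lt_of_le_of_ne (hmin x hx'.2) fun h => hx'.1 ?_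
      exact (hinj hv0 hx'.2 h).symm
    -- pigeonhole
    let cnt : Pt → ℕ := fun x => (W.filter fun u => 0 < orient X Y u v0 x).card
    have hmaps : ∀ x ∈ S.erase v0, ((col s(v0, x), cnt x) : Bool × ℕ) ∈
        (univ : Finset Bool) ×ˢ range (W.card + 1) := by
      intro x _
      simp only [mem_product, mem_univ, true_and, mem_range]
      exact Nat.lt_succ_of_le (Finset.card_filter_le _ _)
    have hbig : ((univ : Finset Bool) ×ˢ range (W.card + 1)).card * (N T (W.card + 1) - 1)
        < (S.erase v0).card := by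
      rw [Finset.card_product, Finset.card_range, Finset.card_erase_of_mem hv0]
      simp only [Finset.card_univ, Fintype.card_bool]
      simp only [N] at hc
      have h1 := N_pos T (W.card + 1)
      obtain ⟨k, hk⟩ : ∃ k, N T (W.card + 1) = k + 1 := ⟨N T (W.card + 1) - 1, by omega⟩
      rw [hk] at hc ⊢
      simp only [Nat.add_sub_cancel]
      have h2 : 2 * (W.card + 1) * (k + 1) = 2 * (W.card + 1) * k + 2 * (W.card + 1) := by ring
      omega
    obtain ⟨⟨b0, k0⟩, _, hfib⟩ :=
      Finset.exists_lt_card_fiber_of_mul_lt_card_of_maps_to hmaps hbig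
    set S' := (S.erase v0).filter fun x => ((col s(v0, x), cnt x) : Bool × ℕ) = (b0, k0) with hS'
    have hS'S : S' ⊆ S := fun x hx => Finset.mem_of_mem_erase (Finset.mem_of_mem_filter x hx)
    have hS'lt : ∀ x ∈ S', X v0 < X x := fun x hx => hlt x (Finset.mem_of_mem_filter x hx)
    have hS'prop : ∀ x ∈ S', col s(v0, x) = b0 ∧ cnt x = k0 := by
      intro x hx
      have := (Finset.mem_filter.1 hx).2
      exact ⟨congrArg Prod.fst this, congrArg Prod.snd this⟩
    have hv0W : v0 ∉ W := fun h => lt_irrefl _ (hW v0 h v0 hv0)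
    have hcardW : (insert v0 W).card = W.card + 1 := Finset.card_insert_of_notMem hv0W
    obtain ⟨V, x0, hVS, hx0, hVc, hVx, hcol, hor, horW⟩ := ih S' (insert v0 W)
      (by
        intro u hu x hx
        rcases Finset.mem_insert.1 hu with rfl | hu
        · exact hS'lt x hx
        · exact hW u hu x (hS'S hx))
      (hinj.mono (by exact_mod_cast hS'S))
      (by
        rw [hcardW]
        have := N_pos T (W.card + 1)
        have h3 : N T (W.card + 1) - 1 < S'.card := hfib
        omega)
    -- same orientation pattern with respect to `v0`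
    have hsame : ∀ x ∈ S', ∀ y ∈ S', ∀ u ∈ W,
        0 < orient X Y u v0 x → 0 < orient X Y u v0 y := by
      intro x hx y hy u hu hux
      have hcx := (hS'prop x hx).2
      have hcy := (hS'prop y hy).2
      have hXx := hS'lt x hx
      have hXy := hS'lt y hy
      -- transitivity
      have trans : ∀ p q : Pt, X v0 < X p → X v0 < X q →
          0 ≤ (X p - X v0) * (Y q - Y v0) - (Y p - Y v0) * (X q - X v0) →
          ∀ u' ∈ W, 0 < orient X Y u' v0 p → 0 < orient X Y u' v0 q := by
        intro p q hp hq hpq u' hu' h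
        have hu'v : X u' < X v0 := hW u' hu' v0 hv0
        unfold orient at h ⊢
        have hid : (X p - X v0) * ((X v0 - X u') * (Y q - Y v0) - (Y v0 - Y u') * (X q - X v0))
            = (X q - X v0) * ((X v0 - X u') * (Y p - Y v0) - (Y v0 - Y u') * (X p - X v0))
              + (X v0 - X u') * ((X p - X v0) * (Y q - Y v0) - (Y p - Y v0) * (X q - X v0)) := by
          ring
        have hpos : 0 < (X p - X v0) *
            ((X v0 - X u') * (Y q - Y v0) - (Y v0 - Y u') * (X q - X v0)) := by
          rw [hid]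
          have h1 := mul_pos (sub_pos.2 hq) h
          have h2 := mul_nonneg (sub_pos.2 hu'v).le hpq
          linarith
        exact (pos_iff_pos_of_mul_pos hpos).1 (sub_pos.2 hp)
      rcases le_total 0 ((X x - X v0) * (Y y - Y v0) - (Y x - Y v0) * (X y - X v0)) with h | h
      · exact trans x y hXx hXy h u hu hux
      · -- the pattern of `y` is contained in that of `x`, and they have the same size
        have hsub : (W.filter fun u => 0 < orient X Y u v0 y) ⊆
            (W.filter fun u => 0 < orient X Y u v0 x) := by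
          intro u' hu'
          rw [Finset.mem_filter] at hu' ⊢
          exact ⟨hu'.1, trans y x hXy hXx (by linarith) u' hu'.1 hu'.2⟩
        have heq := Finset.eq_of_subset_of_card_le hsub (by
          show cnt x ≤ cnt y
          rw [hcx, hcy])
        have hmem : u ∈ W.filter fun u => 0 < orient X Y u v0 y := by
          rw [heq, Finset.mem_filter]; exact ⟨hu, hux⟩
        exact (Finset.mem_filter.1 hmem).2
    have hv0V : v0 ∉ V := fun h => lt_irrefl _ (hS'lt v0 (hVS h))
    refine ⟨insert v0 V, x0, ?_, hS'S hx0, ?_, ?_, ?_, ?_, ?_⟩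
    · intro x hx
      rcases Finset.mem_insert.1 hx with rfl | hx
      · exact hv0
      · exact hS'S (hVS hx)
    · rw [Finset.card_insert_of_notMem hv0V, hVc]
    · intro a ha
      rcases Finset.mem_insert.1 ha with rfl | ha
      · exact hS'lt x0 hx0
      · exact hVx a ha
    · intro a ha b hb hab
      rcases Finset.mem_insert.1 ha with ha' | ha'
      · rcases Finset.mem_insert.1 hb with hb' | hb'
        · rw [ha', hb'] at hab
          exact absurd hab (lt_irrefl _)
        · rw [ha', (hS'prop b (hVS hb')).1, (hS'prop x0 hx0).1]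
      · rcases Finset.mem_insert.1 hb with hb' | hb'
        · rw [hb'] at hab
          exact absurd hab (not_lt.2 (hS'lt a (hVS ha')).le)
        · exact hcol a ha' b hb' hab
    · intro a ha b hb c hc hab hbc
      rcases Finset.mem_insert.1 hb with hb' | hb'
      · -- `b = v0` is impossible
        rw [hb'] at hab
        rcases Finset.mem_insert.1 ha with ha' | ha'
        · rw [ha'] at hab
          exact absurd hab (lt_irrefl _)
        · exact absurd hab (not_lt.2 (hS'lt a (hVS ha')).le)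
      · rcases Finset.mem_insert.1 hc with hc' | hc'
        · rw [hc'] at hbc
          exact absurd hbc (not_lt.2 (hS'lt b (hVS hb')).le)
        · rcases Finset.mem_insert.1 ha with ha' | ha'
          · rw [ha']
            exact horW v0 (Finset.mem_insert_self _ _) b hb' c hc' hbc
          · exact hor a ha' b hb' c hc' hab hbc
    · intro u hu b hb c hc hbc
      rcases Finset.mem_insert.1 hc with hc' | hc'
      · rw [hc'] at hbc
        rcases Finset.mem_insert.1 hb with hb' | hb'
        · rw [hb'] at hbc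
          exact absurd hbc (lt_irrefl _)
        · exact absurd hbc (not_lt.2 (hS'lt b (hVS hb')).le)
      · rcases Finset.mem_insert.1 hb with hb' | hb'
        · rw [hb']
          exact ⟨fun h => hsame c (hVS hc') x0 hx0 u hu h, fun h => hsame x0 hx0 c (hVS hc') u hu h⟩
        · exact horW u (Finset.mem_insert_of_mem hu) b hb' c hc' hbc

/-- A chain all of whose triples turn in the same direction is in convex position. -/
lemma convexPos_of_chain (δ s : ℝ) (hs : s ≠ 0) (Q : Finset Pt)
    (hinj : Set.InjOn (fun a : Pt => a 0 + δ * a 1) (Q : Set Pt))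
    (h : ∀ a ∈ Q, ∀ b ∈ Q, ∀ c ∈ Q, a 0 + δ * a 1 < b 0 + δ * b 1 → b 0 + δ * b 1 < c 0 + δ * c 1 →
      0 < s * orient (fun a => a 0 + δ * a 1) (fun a => a 1) a b c) :
    ConvexPos Q := by
  classical
  intro x hx hmem
  set X : Pt → ℝ := fun a => a 0 + δ * a 1 with hX
  set Y : Pt → ℝ := fun a => a 1 with hY
  let sl : Pt → ℝ := fun a => s * (Y a - Y x) / (X a - X x)
  obtain ⟨m, hm1, hm2⟩ := Order.exists_between_finsets ((Q.filter fun a => X a < X x).image sl)
    ((Q.filter fun a => X x < X a).image sl) (by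
      intro u hu w hw
      obtain ⟨a, ha, rfl⟩ := Finset.mem_image.1 hu
      obtain ⟨c, hc, rfl⟩ := Finset.mem_image.1 hw
      rw [Finset.mem_filter] at ha hc
      have h1 := h a ha.1 x hx c hc.1 ha.2 hc.2
      have hax : 0 < X x - X a := sub_pos.2 ha.2
      have hcx : 0 < X c - X x := sub_pos.2 hc.2
      have e1 : sl a = s * (Y x - Y a) / (X x - X a) := by
        simp only [sl]
        rw [← neg_sub (Y x) (Y a), ← neg_sub (X x) (X a), mul_neg, neg_div_neg_eq]
      rw [e1]
      simp only [sl]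
      rw [div_lt_div_iff₀ hax hcx]
      have h2 : 0 < s * ((X x - X a) * (Y c - Y x) - (Y x - Y a) * (X c - X x)) := h1
      nlinarith)
  let φ : Pt → ℝ := fun z => s * Y z - m * X z
  have hlin : ∀ z ∈ Q, z ≠ x → φ x < φ z := by
    intro z hz hzx
    have hXne : X z ≠ X x := fun e => hzx (hinj hz hx e)
    rcases lt_or_gt_of_ne hXne with hlt | hgt
    · have h1 := hm1 (sl z) (Finset.mem_image.2 ⟨z, Finset.mem_filter.2 ⟨hz, hlt⟩, rfl⟩)
      simp only [sl] at h1
      rw [div_lt_iff_of_neg (by linarith)] at h1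
      simp only [φ]
      nlinarith
    · have h1 := hm2 (sl z) (Finset.mem_image.2 ⟨z, Finset.mem_filter.2 ⟨hz, hgt⟩, rfl⟩)
      simp only [sl] at h1
      rw [lt_div_iff₀ (by linarith)] at h1
      simp only [φ]
      nlinarith
  have hconv : Convex ℝ {z : Pt | φ x < φ z} := by
    intro u hu w hw p q hp hq hpq
    have hu' : φ x < φ u := hu
    have hw' : φ x < φ w := hw
    show φ x < φ (p • u + q • w)
    have e : φ (p • u + q • w) = p * φ u + q * φ w := by
      simp only [φ, X, Y, PiLp.add_apply, PiLp.smul_apply, smul_eq_mul]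
      ring
    have e2 : φ x = p * φ x + q * φ x := by rw [← add_mul, hpq, one_mul]
    rw [e, e2]
    rcases hp.eq_or_lt with h0 | h0
    · have : q = 1 := by linarith
      subst this
      rw [← h0]
      linarith
    · have h1 := mul_lt_mul_of_pos_left hu' h0
      have h2 := mul_le_mul_of_nonneg_left hw'.le hq
      linarith
  have := convexHull_min (s := (Q : Set Pt) \ {x}) (t := {z : Pt | φ x < φ z})
    (fun z hz => hlin z hz.1 (by simpa using hz.2)) hconv hmem
  have h' : φ x < φ x := this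
  exact lt_irrefl _ h'

/-- distinct points have distinct first coordinates after a suitable shear -/
lemma exists_shear (P : Finset Pt) :
    ∃ δ : ℝ, Set.InjOn (fun a : Pt => a 0 + δ * a 1) (P : Set Pt) := by
  classical
  let bad : Finset ℝ := (P ×ˢ P).image fun q => -(q.1 0 - q.2 0) / (q.1 1 - q.2 1)
  obtain ⟨δ, hδ⟩ := Infinite.exists_notMem_finset bad
  refine ⟨δ, fun a ha b hb hab => ?_⟩
  simp only at hab
  by_cases h1 : a 1 = b 1
  · rw [h1] at hab
    ext i
    fin_cases i
    · simpa using hab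
    · simpa using h1
  · exfalso
    apply hδ
    rw [Finset.mem_image]
    refine ⟨(a, b), Finset.mem_product.2 ⟨ha, hb⟩, ?_⟩
    simp only
    have h2 : a 1 - b 1 ≠ 0 := sub_ne_zero.2 h1
    rw [div_eq_iff h2]
    linarith

lemma orient_ne_zero {δ : ℝ} {a b c : Pt}
    (hab : a 0 + δ * a 1 < b 0 + δ * b 1) (hnc : ¬ Collinear ℝ {a, b, c}) :
    orient (fun a => a 0 + δ * a 1) (fun a => a 1) a b c ≠ 0 := by
  intro h0
  apply hnc
  unfold orient at h0
  simp only at h0
  have hne : b 0 + δ * b 1 - (a 0 + δ * a 1) ≠ 0 := by linarith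
  rw [collinear_iff_of_mem (p₀ := a) (by simp)]
  refine ⟨b - a, fun p hp => ?_⟩
  simp only [Set.mem_insert_iff, Set.mem_singleton_iff] at hp
  rcases hp with rfl | rfl | rfl
  · exact ⟨0, by simp⟩
  · exact ⟨1, by simp⟩
  · set D := b 0 + δ * b 1 - (a 0 + δ * a 1) with hD
    set t := (p 0 + δ * p 1 - (a 0 + δ * a 1)) / D with ht
    have h1 : t * D = p 0 + δ * p 1 - (a 0 + δ * a 1) := by
      rw [ht]; field_simp
    have hY : p 1 - a 1 = t * (b 1 - a 1) := by
      have : D * (p 1 - a 1) = D * (t * (b 1 - a 1)) := by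
        have e1 : p 0 + δ * p 1 - (b 0 + δ * b 1) = t * D - D := by rw [h1, hD]; ring
        have e2 : D * (p 1 - b 1) - (b 1 - a 1) * (p 0 + δ * p 1 - (b 0 + δ * b 1)) = 0 := h0
        rw [e1] at e2
        linear_combination e2
      exact mul_left_cancel₀ hne this
    refine ⟨t, ?_⟩
    ext i
    fin_cases i
    · simp
      have : p 0 - a 0 = t * (b 0 - a 0) := by
        have e3 : p 0 + δ * p 1 - (a 0 + δ * a 1) = t * D := h1.symm
        have e4 : p 0 - a 0 = t * D - δ * (p 1 - a 1) := by rw [← e3]; ring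
        rw [e4, hY, hD]; ring
      linarith
    · simp
      linarith

/-- the main finite statement -/
lemma main (p : ℕ) (hp : 3 ≤ p) (P : Finset Pt)
    (hP : N (2 * (p - 2) ^ 2 + 1) 0 ≤ P.card) (hgp : GenPos P) (col : Sym2 Pt → Bool) :
    ∃ Q ⊆ P, Q.card = p ∧ ConvexPos Q ∧
      ∃ b : Bool, ∀ x ∈ Q, ∀ y ∈ Q, x ≠ y → col s(x, y) = b := by
  classical
  obtain ⟨δ, hδ⟩ := exists_shear P
  set X : Pt → ℝ := fun a => a 0 + δ * a 1 with hX
  set Y : Pt → ℝ := fun a => a 1 with hY
  obtain ⟨V, x0, hVP, hx0, hVc, hVx, hcol, hor, -⟩ := seq X Y col (2 * (p - 2) ^ 2 + 1) P ∅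
    (by simp) hδ (by simpa using hP)
  -- majority colour
  obtain ⟨b, -, hb⟩ := Finset.exists_lt_card_fiber_of_mul_lt_card_of_maps_to
    (s := V) (t := (univ : Finset Bool)) (f := fun a => col s(a, x0)) (n := (p - 2) ^ 2)
    (fun _ _ => Finset.mem_univ _) (by
      simp only [Finset.card_univ, Fintype.card_bool]
      omega)
  set A := V.filter fun a => col s(a, x0) = b with hA
  have hAV : ∀ a ∈ A, a ∈ V := fun a ha => Finset.mem_of_mem_filter a ha
  have hAcol : ∀ a ∈ A, col s(a, x0) = b := fun a ha => (Finset.mem_filter.1 ha).2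
  -- order by `X`
  let α := {a // a ∈ A}
  have hinjα : Function.Injective (fun a : α => X a.1) := by
    intro a a' h
    exact Subtype.ext (hδ (hVP (hAV _ a.2)) (hVP (hAV _ a'.2)) h)
  let _ : LinearOrder α := LinearOrder.lift' (fun a : α => X a.1) hinjα
  have hltα : ∀ a a' : α, a < a' ↔ X a.1 < X a'.1 := fun a a' => Iff.rfl
  let f : α → ℝ := fun a => (Y x0 - Y a.1) / (X x0 - X a.1)
  have hpos : ∀ a : α, 0 < X x0 - X a.1 := fun a => sub_pos.2 (hVx _ (hAV _ a.2))
  have hP' : ∀ a : α, a.1 ∈ P := fun a => hVP (hAV _ a.2)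
  have hx0ne : ∀ a : α, a.1 ≠ x0 := by
    intro a h
    have := hpos a
    rw [h] at this
    simp at this
  have hkey : ∀ a a' : α, (X a'.1 - X a.1) * (Y x0 - Y a'.1) - (Y a'.1 - Y a.1) * (X x0 - X a'.1)
      = (X x0 - X a.1) * (Y x0 - Y a'.1) - (Y x0 - Y a.1) * (X x0 - X a'.1) := by
    intro a a'; ring
  have hf_lt : ∀ a a' : α, f a < f a' ↔ 0 < orient X Y a.1 a'.1 x0 := by
    intro a a'
    simp only [f]
    rw [div_lt_div_iff₀ (hpos a) (hpos a')]
    unfold orient
    rw [hkey]
    constructor <;> intro h <;> linarith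
  have hne0 : ∀ a b c : Pt, a ∈ P → b ∈ P → c ∈ P → X a < X b → X b < X c →
      orient X Y a b c ≠ 0 := by
    intro a b c ha hb' hc h1 h2
    refine orient_ne_zero h1 (hgp a ha b hb' c hc ?_ ?_ ?_)
    · rintro rfl; exact lt_irrefl _ h1
    · rintro rfl; exact lt_irrefl _ (h1.trans h2)
    · rintro rfl; exact lt_irrefl _ h2
  have hfinj : Function.Injective f := by
    intro a a' h
    by_contra hne
    rcases lt_or_gt_of_ne hne with hlt | hgt
    · have h1 := hne0 a.1 a'.1 x0 (hP' a) (hP' a') hx0 ((hltα _ _).1 hlt) (sub_pos.1 (hpos a'))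
      have h2 : ¬ 0 < orient X Y a.1 a'.1 x0 := by rw [← hf_lt]; rw [h]; exact lt_irrefl _
      have h3 : ¬ f a' < f a := by rw [h]; exact lt_irrefl _
      apply h1
      have h4 : (Y x0 - Y a.1) * (X x0 - X a'.1) = (Y x0 - Y a'.1) * (X x0 - X a.1) := by
        have := h
        simp only [f] at this
        rwa [div_eq_div_iff (hpos a).ne' (hpos a').ne'] at this
      unfold orient
      rw [hkey]
      linarith
    · have h1 := hne0 a'.1 a.1 x0 (hP' a') (hP' a) hx0 ((hltα _ _).1 hgt) (sub_pos.1 (hpos a))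
      apply h1
      have h4 : (Y x0 - Y a.1) * (X x0 - X a'.1) = (Y x0 - Y a'.1) * (X x0 - X a.1) := by
        have := h
        simp only [f] at this
        rwa [div_eq_div_iff (hpos a).ne' (hpos a').ne'] at this
      unfold orient
      rw [hkey]
      linarith
  -- conclusion for a chain of sign `s`
  have final : ∀ (s : ℝ) (t : Finset α), s ≠ 0 → p - 2 < t.card →
      (∀ a ∈ t, ∀ a' ∈ t, a < a' → 0 < s * orient X Y a.1 a'.1 x0) →
      (∀ a ∈ t, ∀ a' ∈ t, ∀ a'' ∈ t, a < a' → a' < a'' → 0 < s * orient X Y a.1 a'.1 a''.1) →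
      ∃ Q ⊆ P, Q.card = p ∧ ConvexPos Q ∧
        ∃ b : Bool, ∀ x ∈ Q, ∀ y ∈ Q, x ≠ y → col s(x, y) = b := by
    intro s t hs htc h2 h3
    obtain ⟨t', ht't, ht'c⟩ := Finset.exists_subset_card_eq (show p - 1 ≤ t.card by omega)
    let Q0 : Finset Pt := t'.map (Function.Embedding.subtype _)
    have hQ0 : ∀ x ∈ Q0, ∃ a : α, a ∈ t' ∧ a.1 = x := by
      intro x hx
      obtain ⟨a, ha, rfl⟩ := Finset.mem_map.1 hx
      exact ⟨a, ha, rfl⟩
    have hx0Q : x0 ∉ Q0 := by
      intro h
      obtain ⟨a, _, ha⟩ := hQ0 x0 h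
      exact hx0ne a ha
    have hQsub : insert x0 Q0 ⊆ P := by
      intro x hx
      rcases Finset.mem_insert.1 hx with rfl | hx
      · exact hx0
      · obtain ⟨a, _, rfl⟩ := hQ0 x hx
        exact hP' a
    refine ⟨insert x0 Q0, hQsub, ?_, ?_, b, ?_⟩
    · rw [Finset.card_insert_of_notMem hx0Q, Finset.card_map, ht'c]
      omega
    · refine convexPos_of_chain δ s hs _ (hδ.mono (by exact_mod_cast hQsub)) ?_
      intro a ha a' ha' a'' ha'' h h'
      have h : X a < X a' := h
      have h' : X a' < X a'' := h'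
      show 0 < s * orient X Y a a' a''
      rcases Finset.mem_insert.1 ha' with e' | ha'
      · rw [e'] at h'
        rcases Finset.mem_insert.1 ha'' with e'' | ha''
        · rw [e''] at h'; exact absurd h' (lt_irrefl _)
        · obtain ⟨u, _, rfl⟩ := hQ0 a'' ha''
          exact absurd h' (not_lt.2 (sub_pos.1 (hpos u)).le)
      · obtain ⟨u', hu', rfl⟩ := hQ0 a' ha'
        rcases Finset.mem_insert.1 ha with e | ha
        · rw [e] at h; exact absurd h (not_lt.2 (sub_pos.1 (hpos u')).le)
        · obtain ⟨u, hu, rfl⟩ := hQ0 a ha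
          rcases Finset.mem_insert.1 ha'' with e'' | ha''
          · rw [e'']
            exact h2 u (ht't hu) u' (ht't hu') h
          · obtain ⟨u'', hu'', rfl⟩ := hQ0 a'' ha''
            exact h3 u (ht't hu) u' (ht't hu') u'' (ht't hu'') h h'
    · intro x hx y hy hxy
      have hpair : ∀ u u' : α, u ≠ u' → col s(u.1, u'.1) = b := by
        intro u u' hne
        rcases lt_or_gt_of_ne hne with hlt | hgt
        · rw [hcol u.1 (hAV _ u.2) u'.1 (hAV _ u'.2) hlt]
          exact hAcol _ u.2
        · rw [Sym2.eq_swap, hcol u'.1 (hAV _ u'.2) u.1 (hAV _ u.2) hgt]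
          exact hAcol _ u'.2
      rcases Finset.mem_insert.1 hx with e | hx
      · rcases Finset.mem_insert.1 hy with e' | hy
        · exact absurd (e.trans e'.symm) hxy
        · obtain ⟨u, _, rfl⟩ := hQ0 y hy
          rw [e, Sym2.eq_swap]
          exact hAcol _ u.2
      · obtain ⟨u, _, rfl⟩ := hQ0 x hx
        rcases Finset.mem_insert.1 hy with e' | hy
        · rw [e']
          exact hAcol _ u.2
        · obtain ⟨u', _, rfl⟩ := hQ0 y hy
          exact hpair u u' fun e => hxy (congrArg Subtype.val e)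
  have hcardα : (p - 2) * (p - 2) < Fintype.card α := by
    rw [Fintype.card_coe]
    have : (p - 2) ^ 2 < A.card := hb
    rwa [sq] at this
  rcases Pool.Agent.H184R3.ES.erdos_szekeres hcardα hfinj with ⟨t, htc, hmono⟩ | ⟨t, htc, hanti⟩
  · refine final 1 t one_ne_zero htc ?_ ?_
    · intro a ha a' ha' hlt
      rw [one_mul, ← hf_lt]
      exact hmono ha ha' hlt
    · intro a ha a' ha' a'' ha'' hlt hlt'
      rw [one_mul, hor a.1 (hAV _ a.2) a'.1 (hAV _ a'.2) a''.1 (hAV _ a''.2) hlt hlt', ← hf_lt]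
      exact hmono ha ha' hlt
  · have hneg : ∀ a ∈ t, ∀ a' ∈ t, a < a' → ¬ 0 < orient X Y a.1 a'.1 x0 := by
      intro a ha a' ha' hlt h
      rw [← hf_lt] at h
      exact lt_asymm h (hanti ha ha' hlt)
    refine final (-1) t (by norm_num) htc ?_ ?_
    · intro a ha a' ha' hlt
      have h1 := hneg a ha a' ha' hlt
      have h2 := hne0 a.1 a'.1 x0 (hP' a) (hP' a') hx0 hlt (sub_pos.1 (hpos a'))
      have h3 : orient X Y a.1 a'.1 x0 < 0 := lt_of_le_of_ne (not_lt.1 h1) h2
      linarith
    · intro a ha a' ha' a'' ha'' hlt hlt'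
      have h1 := hneg a ha a' ha' hlt
      rw [← hor a.1 (hAV _ a.2) a'.1 (hAV _ a'.2) a''.1 (hAV _ a''.2) hlt hlt'] at h1
      have h2 := hne0 a.1 a'.1 a''.1 (hP' a) (hP' a') (hP' a'') hlt hlt'
      have h3 : orient X Y a.1 a'.1 a''.1 < 0 := lt_of_le_of_ne (not_lt.1 h1) h2
      linarith

lemma good (p : ℕ) (hp : 3 ≤ p) : Good p (N (2 * (p - 2) ^ 2 + 1) 0) := by
  intro P hP hgp col
  exact main p hp P hP.ge hgp col

/-- For every `p ≥ 3` the number `g p` exists (it has the defining property) and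
`log₂ (g p) ≤ 8 p² log₂ p`. -/
theorem result (p : ℕ) (hp : 3 ≤ p) :
    Good p (g p) ∧ Real.logb 2 (g p) ≤ 8 * (p : ℝ) ^ 2 * Real.logb 2 p := by
  have hgood := good p hp
  refine ⟨Nat.sInf_mem (s := {n | Good p n}) ⟨_, hgood⟩, ?_⟩
  have hle : g p ≤ N (2 * (p - 2) ^ 2 + 1) 0 := Nat.sInf_le hgood
  set T := 2 * (p - 2) ^ 2 + 1 with hT
  have hTle : T ≤ 2 * p ^ 2 := by
    obtain ⟨q, rfl⟩ : ∃ q, p = q + 3 := ⟨p - 3, by omega⟩
    have : q + 3 - 2 = q + 1 := by omega
    rw [hT, this]
    nlinarith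
  have hT1 : 1 ≤ T := by omega
  have hN : N T 0 ≤ (4 * p ^ 2) ^ (2 * p ^ 2) := by
    rw [N_eq, zero_add, Nat.one_ascFactorial]
    calc 2 ^ T * T.factorial ≤ 2 ^ T * T ^ T := Nat.mul_le_mul_left _ (Nat.factorial_le_pow T)
      _ = (2 * T) ^ T := by rw [mul_pow]
      _ ≤ (4 * p ^ 2) ^ T := Nat.pow_le_pow_left (by omega) _
      _ ≤ (4 * p ^ 2) ^ (2 * p ^ 2) := Nat.pow_le_pow_right (by positivity) hTle
  have hlog2 : 1 ≤ Real.logb 2 p := by
    rw [Real.le_logb_iff_rpow_le (by norm_num) (by positivity)]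
    rw [Real.rpow_one]
    exact_mod_cast (by omega : 2 ≤ p)
  by_cases h0 : g p = 0
  · rw [h0]
    simp
    positivity
  have hgpos : (0 : ℝ) < g p := by exact_mod_cast Nat.pos_of_ne_zero h0
  have h1 : Real.logb 2 (g p) ≤ Real.logb 2 (((4 * p ^ 2) ^ (2 * p ^ 2) : ℕ) : ℝ) := by
    apply Real.logb_le_logb_of_le (by norm_num) hgpos
    exact_mod_cast hle.trans hN
  have hppos : (0 : ℝ) < p := by positivity
  have h2 : Real.logb 2 (((4 * p ^ 2) ^ (2 * p ^ 2) : ℕ) : ℝ)
      = 2 * (p : ℝ) ^ 2 * (2 + 2 * Real.logb 2 p) := by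
    push_cast
    rw [Real.logb_pow, Real.logb_mul (by norm_num) (by positivity), Real.logb_pow]
    have h4 : Real.logb 2 4 = 2 := by
      rw [show (4 : ℝ) = 2 ^ (2 : ℕ) by norm_num, Real.logb_pow, Real.logb_self_eq_one (by norm_num)]
      norm_num
    rw [h4]
    push_cast
    ring
  rw [h2] at h1
  refine h1.trans ?_
  nlinarith [mul_nonneg (sq_nonneg (p : ℝ)) (sub_nonneg.2 hlog2)]

end Pool.Agent.Results.MP_6c3374_co.QuasiQuadraticLog
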